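import Pool.Agent.Q23.EG.Stm

/-!
# Project EG, job U: uniqueness of the exponents from the functional
-/

set_option autoImplicit false

namespace Pool.Agent.Q94.EG

open Finset
open Pool.Agent.Q23.EG

theorem uniq : S_uniq := by
  intro M D T _ G lam I hlam1 h1I hIG hpos hcard hDM hfun κ hκ j hj hcong
  classical
  set κ' : (ZMod M)ˣ → ℤ := fun h => if h ∈ I then (if h = 1 then (κ 1 : ℤ) - j else (κ h : ℤ) - D) else 0
    with hκ'
  have h0 : ∀ h, h ∉ I → κ' h = 0 := fun h hh => by simp [hκ', hh]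
  have hone : κ' 1 = (κ 1 : ℤ) - j := by simp [hκ', h1I]
  have hoth : ∀ h ∈ I, h ≠ 1 → κ' h = (κ h : ℤ) - D := fun h hh hne => by simp [hκ', hh, hne]
  have hsupp : ∀ f : (ZMod M)ˣ → ℤ, (∀ h, h ∉ I → f h = 0) → ∑ h : (ZMod M)ˣ, f h = ∑ h ∈ I, f h := by
    intro f hf
    exact (Finset.sum_subset (Finset.subset_univ I) (fun h _ hh => hf h hh)).symm
  have habs : ∀ h ∈ I, |κ' h| ≤ (D : ℤ) := by
    intro h hh
    have h2 : (κ h : ℤ) ≤ D := by exact_mod_cast hκ h hh
    have h3 : (0 : ℤ) ≤ κ h := by positivity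
    rcases eq_or_ne h 1 with rfl | hne
    · rw [hone, abs_le]
      have : (j : ℤ) < D := by exact_mod_cast hj
      have : (0 : ℤ) ≤ j := by positivity
      constructor <;> linarith
    · rw [hoth h hh hne, abs_le]
      constructor <;> linarith
  have hA : ∑ h : (ZMod M)ˣ, |κ' h| ≤ (T : ℤ) := by
    rw [hsupp (fun h => |κ' h|) (fun h hh => by simp [h0 h hh])]
    calc ∑ h ∈ I, |κ' h| ≤ ∑ _h ∈ I, (D : ℤ) := Finset.sum_le_sum habs
      _ = (I.card : ℤ) * D := by simp
      _ ≤ T := by exact_mod_cast hcard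
  have hB : ∑ h : (ZMod M)ˣ, ((κ' h : ℤ) : ZMod M) * (h : ZMod M) = 0 := by
    have e1 : ∑ h : (ZMod M)ˣ, ((κ' h : ℤ) : ZMod M) * (h : ZMod M) =
        ∑ h ∈ I, ((κ' h : ℤ) : ZMod M) * (h : ZMod M) :=
      (Finset.sum_subset (Finset.subset_univ I) (fun h _ hh => by simp [h0 h hh])).symm
    rw [e1]
    have e2 := (ZMod.natCast_eq_natCast_iff _ _ _).2 hcong
    push_cast at e2
    simp only [ZMod.natCast_val, ZMod.cast_id', id_eq] at e2
    rw [← Finset.add_sum_erase I _ h1I, hone]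
    rw [← Finset.add_sum_erase I (fun h => (κ h : ZMod M) * (h : ZMod M)) h1I] at e2
    have e3 : ∑ h ∈ I.erase 1, ((κ' h : ℤ) : ZMod M) * (h : ZMod M) =
        ∑ h ∈ I.erase 1, (κ h : ZMod M) * (h : ZMod M) - ∑ h ∈ I.erase 1, (D : ZMod M) * (h : ZMod M) := by
      rw [← Finset.sum_sub_distrib]
      refine Finset.sum_congr rfl fun h hh => ?_
      rw [hoth h (Finset.mem_of_mem_erase hh) (Finset.ne_of_mem_erase hh)]
      push_cast
      ring
    rw [e3]
    simp only [Units.val_one] at e2 ⊢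
    push_cast
    linear_combination e2
  have hC := hfun κ' (fun h hh => h0 h (fun hI => hh (hIG h hI))) hA hB
  rw [hsupp (fun h => κ' h * lam h) (fun h hh => by simp [h0 h hh])] at hC
  have hle : ∀ h ∈ I, κ' h * lam h ≤ 0 := by
    intro h hh
    rcases eq_or_ne h 1 with rfl | hne
    · simp [hlam1]
    · rw [hoth h hh hne]
      have h2 : (κ h : ℤ) ≤ D := by exact_mod_cast hκ h hh
      exact mul_nonpos_of_nonpos_of_nonneg (by linarith) (hpos h hh hne).le
  have hz := (Finset.sum_eq_zero_iff_of_nonpos hle).1 hC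
  have hD : ∀ h ∈ I, h ≠ 1 → κ h = D := by
    intro h hh hne
    have h2 := hz h hh
    rcases mul_eq_zero.1 h2 with h3 | h3
    · rw [hoth h hh hne] at h3
      have : (κ h : ℤ) = D := by linarith
      exact_mod_cast this
    · exact absurd h3 (hpos h hh hne).ne'
  refine ⟨?_, hD⟩
  have e1 : ∑ h : (ZMod M)ˣ, ((κ' h : ℤ) : ZMod M) * (h : ZMod M) = ((κ' 1 : ℤ) : ZMod M) := by
    rw [Finset.sum_eq_single_of_mem (1 : (ZMod M)ˣ) (Finset.mem_univ _)]
    · simp
    · intro h _ hne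
      by_cases hh : h ∈ I
      · rw [hoth h hh hne, hD h hh hne]
        simp
      · simp [h0 h hh]
  rw [e1, ZMod.intCast_zmod_eq_zero_iff_dvd] at hB
  have h5 : |κ' 1| < (M : ℤ) := lt_of_le_of_lt (habs 1 h1I) (by exact_mod_cast hDM)
  have h6 : κ' 1 = 0 := Int.eq_zero_of_abs_lt_dvd hB h5
  rw [hone] at h6
  have : (κ 1 : ℤ) = j := by linarith
  exact_mod_cast this

end Pool.Agent.Q94.EG
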